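import Pool.Agent.TH304.MI.Stm

/-!
# Project MI: assembly of the planar contradiction (helper329)
-/

set_option autoImplicit false

open MeasureTheory Set Metric Filter Topology
open scoped ENNReal Real

noncomputable section

namespace Pool.Agent.TH304.MI

namespace T2D

variable {b : ℕ}

lemma int_w (b : ℕ) : IntegrableOn (fun z : ℂ => (1 - ‖z‖) ^ b) D1 := by
  have h : ContinuousOn (fun z : ℂ => (1 - ‖z‖) ^ b) (closedBall (0 : ℂ) 1) := by fun_prop
  exact (h.integrableOn_compact (isCompact_closedBall 0 1)).mono_set ball_subset_closedBall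

lemma w_nonneg {z : ℂ} (hz : z ∈ D1) : 0 ≤ (1 - ‖z‖) ^ b := by
  have : ‖z‖ < 1 := by simpa [D1] using hz
  exact pow_nonneg (by linarith) _

lemma ms_nonneg {A : Set ℂ} (hA : MeasurableSet A) (hs : A ⊆ D1) : 0 ≤ ms b A :=
  setIntegral_nonneg hA fun z hz => w_nonneg (hs hz)

lemma ms_mono {A B : Set ℂ} (hB : MeasurableSet B) (h : A ⊆ B) (hs : B ⊆ D1) :
    ms b A ≤ ms b B := by
  unfold ms
  refine setIntegral_mono_set ((int_w b).mono_set hs) ?_ (HasSubset.Subset.eventuallyLE h)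
  filter_upwards [ae_restrict_mem hB] with z hz using w_nonneg (hs hz)

lemma ms_union {A B : Set ℂ} (hd : Disjoint A B) (hB : MeasurableSet B) (hA' : A ⊆ D1)
    (hB' : B ⊆ D1) : ms b (A ∪ B) = ms b A + ms b B :=
  setIntegral_union hd hB ((int_w b).mono_set hA') ((int_w b).mono_set hB')

lemma ms_split {A S : Set ℂ} (hS : MeasurableSet S) (hA' : A ⊆ D1) :
    ms b (A ∩ S) + ms b (A \ S) = ms b A :=
  integral_inter_add_diff hS ((int_w b).mono_set hA')

lemma P2_mono {V A : Set ℂ} {C C' : ℝ} (h : P2 b V A C) (hC : C ≤ C') : P2 b V A C' :=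
  fun Z hZ => (h Z hZ).trans hC

lemma P2_nonneg {V A : Set ℂ} {C : ℝ} (h : P2 b V A C) : 0 ≤ C := by
  have h1 : Fl2 b V (fun _ => 0) := by
    refine ⟨contDiff_const, HasCompactSupport.zero, ?_, ?_⟩
    · have : tsupport (fun _ : ℂ => (0 : ℂ)) = ∅ := by
        rw [tsupport_eq_empty_iff]
        rfl
      rw [this]
      exact empty_subset _
    · intro z hz
      rw [norm_zero]
      exact pow_nonneg (by linarith) _
  have h2 := h _ h1
  have h3 : ∀ z : ℂ, dv2 (fun _ : ℂ => (0 : ℂ)) z = 0 := by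
    intro z
    simp [dv2]
  simp only [h3] at h2
  simpa using h2

lemma dv2_cont {Z : ℂ → ℂ} (h : ContDiff ℝ 1 Z) : Continuous (dv2 Z) := by
  have h1 : Continuous (fderiv ℝ Z) := h.continuous_fderiv one_ne_zero
  unfold dv2
  exact (Complex.continuous_re.comp (h1.clm_apply continuous_const)).add
    (Complex.continuous_im.comp (h1.clm_apply continuous_const))

lemma dv2_int {Z : ℂ → ℂ} (h : ContDiff ℝ 1 Z) : IntegrableOn (dv2 Z) D1 :=
  ((dv2_cont h).continuousOn.integrableOn_compact (isCompact_closedBall 0 1)).mono_set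
    ball_subset_closedBall

lemma P2_compl (hdz : S_dz) {A : Set ℂ} (hA : MeasurableSet A) (hs : A ⊆ D1) {C : ℝ}
    (h : P2 b (D1 \ {0}) A C) : P2 b (D1 \ {0}) (D1 \ A) C := by
  intro Z hZ
  have h0 := hdz b Z ⟨hZ.cd, hZ.cs, hZ.sub.trans diff_subset, hZ.bd⟩
  have h1 : Fl2 b (D1 \ {0}) (fun z => - Z z) := by
    refine ⟨hZ.cd.neg, hZ.cs.neg, ?_, ?_⟩
    · have : tsupport (fun z => - Z z) = tsupport Z := by
        unfold tsupport
        congr 1
        ext z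
        simp
      rw [this]
      exact hZ.sub
    · intro z hz
      rw [norm_neg]
      exact hZ.bd z hz
  have h2 := h _ h1
  have h3 : ∀ z : ℂ, dv2 (fun z => - Z z) z = - dv2 Z z := by
    intro z
    unfold dv2
    rw [fderiv_fun_neg]
    simp
    ring
  simp only [h3] at h2
  rw [integral_neg] at h2
  have h4 : (∫ z in D1 ∩ A, dv2 Z z) + (∫ z in D1 \ A, dv2 Z z) = ∫ z in D1, dv2 Z z :=
    integral_inter_add_diff hA (dv2_int hZ.cd)
  rw [inter_eq_self_of_subset_right hs] at h4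
  linarith

/-- symmetric hypotheses -/
structure QQ (b : ℕ) (m : ℝ) (A : Set ℂ) : Prop where
  meas : MeasurableSet A
  sub : A ⊆ D1
  half : ms b A = ms b D1 / 2
  min : ∀ F : Set ℂ, MeasurableSet F → F ⊆ D1 → ms b F = ms b D1 / 2 →
    ∀ C : ℝ, P2 b D1 F C → P2 b (D1 \ {0}) A C
  tr : ∀ t ∈ Ioo (0 : ℝ) 1, 0 < volume {r : ℝ | r ∈ Ioo 0 t ∧ (al A r = 0 ∨ al A r = 2 * π)} →
    m ≤ ms b (A ∩ ball 0 t) ∧ m ≤ ms b (ball 0 t \ A)

lemma D1_meas : MeasurableSet D1 := measurableSet_ball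

lemma QQ.compl (hdz : S_dz) (halc : S_alc) {m : ℝ} {A : Set ℂ} (Q : QQ b m A) :
    QQ b m (D1 \ A) := by
  refine ⟨D1_meas.diff Q.meas, diff_subset, ?_, ?_, ?_⟩
  · have h1 := ms_split (b := b) Q.meas (A := D1) subset_rfl
    rw [inter_eq_self_of_subset_right Q.sub] at h1
    have := Q.half
    linarith
  · intro F hF hF' hm C hC
    exact P2_compl hdz Q.meas Q.sub (Q.min F hF hF' hm C hC)
  · intro t ht hv
    have h1 : {r : ℝ | r ∈ Ioo 0 t ∧ (al (D1 \ A) r = 0 ∨ al (D1 \ A) r = 2 * π)} =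
        {r : ℝ | r ∈ Ioo 0 t ∧ (al A r = 0 ∨ al A r = 2 * π)} := by
      ext r
      simp only [mem_setOf_eq]
      refine and_congr_right fun hr => ?_
      rw [halc A Q.meas Q.sub r ⟨hr.1, hr.2.trans ht.2⟩]
      constructor
      · rintro (h | h)
        · right; linarith
        · left; linarith
      · rintro (h | h)
        · right; linarith
        · left; linarith
    rw [h1] at hv
    obtain ⟨h2, h3⟩ := Q.tr t ht hv
    have hb : ball (0 : ℂ) t ⊆ D1 := ball_subset_ball ht.2.le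
    have e1 : (D1 \ A) ∩ ball 0 t = ball 0 t \ A := by
      ext z
      constructor
      · rintro ⟨⟨_, h⟩, h'⟩
        exact ⟨h', h⟩
      · rintro ⟨h', h⟩
        exact ⟨⟨hb h', h⟩, h'⟩
    have e2 : ball 0 t \ (D1 \ A) = A ∩ ball 0 t := by
      ext z
      constructor
      · rintro ⟨h, h'⟩
        refine ⟨?_, h⟩
        by_contra h''
        exact h' ⟨hb h, h''⟩
      · rintro ⟨h, h'⟩
        exact ⟨h', fun h'' => h''.2 h⟩
    rw [e1, e2]
    exact ⟨h3, h2⟩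

/-- right Lebesgue point -/
def Leb (A : Set ℂ) (t : ℝ) : Prop :=
  Tendsto (fun η : ℝ => η⁻¹ * ∫ s in t..(t + η), al A s) (𝓝[>] 0) (𝓝 (al A t))

/-- the radii of the full and of the empty circles -/
def TT (A : Set ℂ) (t : ℝ) : Set ℝ := {r : ℝ | r ∈ Ioo 0 t ∧ (al A r = 0 ∨ al A r = 2 * π)}

lemma al_meas (hpol : S_pol) {A : Set ℂ} (hA : MeasurableSet A) (hs : A ⊆ D1) :
    Measurable (al A) ∧ (∀ r, 0 ≤ al A r ∧ al A r ≤ 2 * π) := by
  have h := hpol A hA hs (fun _ => 0) measurable_const (by simp)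
  exact ⟨h.1, h.2.1⟩

lemma exists_split {S : Set ℝ} (h : volume S ≠ 0) :
    ∃ t : ℝ, 0 < volume (S ∩ Iio t) ∧ 0 < volume (S ∩ Ioi t) := by
  obtain ⟨x, hx, hx'⟩ := exists_mem_forall_mem_nhdsWithin_pos_measure h
  have h1 : volume (S \ {x}) ≠ 0 := by
    rw [measure_diff_null (by simp)]
    exact h
  obtain ⟨y, hy, hy'⟩ := exists_mem_forall_mem_nhdsWithin_pos_measure h1
  have key : ∀ z : ℝ, (∀ t ∈ 𝓝[S \ {x}] z, 0 < volume t) → ∀ t ∈ 𝓝 z, 0 < volume (S ∩ t) := by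
    intro z hz t ht
    have h2 := hz ((S \ {x}) ∩ t) (inter_mem_nhdsWithin _ ht)
    exact h2.trans_le (measure_mono (inter_subset_inter_left _ diff_subset))
  have key' : ∀ t ∈ 𝓝 x, 0 < volume (S ∩ t) := fun t ht => hx' _ (inter_mem_nhdsWithin _ ht)
  rcases lt_or_gt_of_ne (show y ≠ x from hy.2) with hlt | hlt
  · exact ⟨(y + x) / 2, key y hy' _ (Iio_mem_nhds (by linarith)),
      key' _ (Ioi_mem_nhds (by linarith))⟩
  · exact ⟨(y + x) / 2, key' _ (Iio_mem_nhds (by linarith)),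
      key y hy' _ (Ioi_mem_nhds (by linarith))⟩

lemma exists_good {S : Set ℝ} (h : volume S ≠ 0) {P : ℝ → Prop} (hP : ∀ᵐ r : ℝ, P r) :
    ∃ r ∈ S, P r := by
  obtain ⟨r, h1, h2⟩ := ((frequently_ae_mem_iff.2 h).and_eventually hP).exists
  exact ⟨r, h1, h2⟩

lemma ae_of_null (hpol : S_pol) {A : Set ℂ} (hA : MeasurableSet A) (hs : A ⊆ D1) {τ : ℝ}
    (h : volume (TT A τ) = 0) :
    ∀ᵐ r ∂(volume.restrict (Ioo (0 : ℝ) τ)), 0 < al A r ∧ al A r < 2 * π := by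
  rw [ae_restrict_iff' measurableSet_Ioo]
  have h1 : ∀ᵐ r : ℝ, r ∉ TT A τ := measure_eq_zero_iff_ae_notMem.1 h
  filter_upwards [h1] with r hr hr'
  have h2 := (al_meas hpol hA hs).2 r
  constructor
  · rcases h2.1.eq_or_lt with h3 | h3
    · exact absurd ⟨hr', Or.inl h3.symm⟩ hr
    · exact h3
  · rcases h2.2.eq_or_lt with h3 | h3
    · exact absurd ⟨hr', Or.inr h3⟩ hr
    · exact h3

/-- all data at a point -/
structure Q2 (b : ℕ) (m C1 t0 : ℝ) (A : Set ℂ) : Prop where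
  q : QQ b m A
  p : P2 b (D1 \ {0}) A C1
  l1 : Leb A t0
  l2 : Leb (D1 \ A) t0

lemma compl_compl {A : Set ℂ} (hs : A ⊆ D1) : D1 \ (D1 \ A) = A := by
  rw [diff_diff_right_self]
  exact inter_eq_self_of_subset_right hs

lemma Q2.compl (hdz : S_dz) (halc : S_alc) {m C1 t0 : ℝ} {A : Set ℂ} (Q : Q2 b m C1 t0 A) :
    Q2 b m C1 t0 (D1 \ A) := by
  refine ⟨Q.q.compl hdz halc, P2_compl hdz Q.q.meas Q.q.sub Q.p, Q.l2, ?_⟩
  rw [compl_compl Q.q.sub]
  exact Q.l1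

/-- a value of `al` -/
lemma Q2.pick (hdz : S_dz) (halc : S_alc) {m C1 t0 : ℝ} {A : Set ℂ} (Q : Q2 b m C1 t0 A)
    (h0 : t0 ∈ Ioo (0 : ℝ) 1) (h : al A t0 = 0 ∨ al A t0 = 2 * π) (v : ℝ)
    (hv : v = 0 ∨ v = 2 * π) :
    ∃ G : Set ℂ, Q2 b m C1 t0 G ∧ al G t0 = v ∧ (∀ τ : ℝ, τ ≤ 1 → TT G τ = TT A τ) := by
  by_cases h1 : al A t0 = v
  · exact ⟨A, Q, h1, fun _ _ => rfl⟩
  · refine ⟨D1 \ A, Q.compl hdz halc, ?_, ?_⟩
    · rw [halc A Q.q.meas Q.q.sub t0 h0]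
      rcases h with h | h <;> rcases hv with hv | hv
      · exact absurd (h.trans hv.symm) h1
      · rw [h, hv]; ring
      · rw [h, hv]; ring
      · exact absurd (h.trans hv.symm) h1
    · intro τ hτ
      ext r
      unfold TT
      simp only [mem_setOf_eq]
      refine and_congr_right fun hr => ?_
      rw [halc A Q.q.meas Q.q.sub r ⟨hr.1, hr.2.trans_le hτ⟩]
      constructor
      · rintro (h | h)
        · right; linarith
        · left; linarith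
      · rintro (h | h)
        · right; linarith
        · left; linarith

/-- the cases with a radial part -/
lemma caseB (hpol : S_pol) (halc : S_alc) (hU : S_U) (hA : S_A) (hdz : S_dz) (hb : 1 ≤ b)
    {m C1 t0 τ κ : ℝ}
    {A : Set ℂ} (Q : Q2 b m C1 t0 A) (hτ : 0 < τ) (hτt : τ ≤ t0) (ht1 : t0 < 1) (hκ : 0 < κ)
    (k1 : κ * U b t0 < t0 * (1 - t0) ^ b) (k2 : κ * (m0 b - U b t0) < t0 * (1 - t0) ^ b)
    (h : al A t0 = 0 ∨ al A t0 = 2 * π) (hn : volume (TT A τ) = 0) :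
    κ * (π * m0 b) + 2 * (∫ r in (0 : ℝ)..τ, √((1 - r) ^ (2 * b) - (κ * U b r / r) ^ 2)) ≤ C1 := by
  obtain ⟨G, QG, hG, hT⟩ := Q.pick hdz halc ⟨hτ.trans_le hτt, ht1⟩ h 0 (Or.inl rfl)
  have h1 := hA b hb G QG.q.meas QG.q.sub C1 QG.p t0 τ κ hτ hτt ht1 hκ k1 k2 (by
    have := QG.l1
    unfold Leb at this
    rwa [hG] at this) (ae_of_null hpol QG.q.meas QG.q.sub (by
      rw [hT τ (hτt.trans ht1.le)]
      exact hn))
  have h2 := QG.q.half
  rw [(hU b).2.2.2.1] at h2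
  rw [h2] at h1
  have h3 : 2 * π * m0 b / 2 = π * m0 b := by ring
  rwa [h3] at h1

/-- finding a point -/
lemma exists_pt (hleb : S_leb) {m C1 : ℝ} {A : Set ℂ} (Q : QQ b m A)
    (p : P2 b (D1 \ {0}) A C1) {S : Set ℝ} (hS : volume S ≠ 0) :
    ∃ t0 ∈ S, Q2 b m C1 t0 A := by
  have h1 := hleb A Q.meas Q.sub
  have h2 := hleb (D1 \ A) (D1_meas.diff Q.meas) diff_subset
  obtain ⟨t0, ht0, h3⟩ := exists_good hS (h1.and h2)
  exact ⟨t0, ht0, Q, p, h3.1, h3.2⟩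

lemma Ico_pos {A : Set ℂ} {s t : ℝ} (h0 : volume (TT A s) = 0) (h1 : volume (TT A t) ≠ 0)
    (hs : 0 < s) :
    volume {r : ℝ | r ∈ Ico s t ∧ (al A r = 0 ∨ al A r = 2 * π)} ≠ 0 := by
  intro h2
  apply h1
  have h3 : TT A t ⊆ TT A s ∪ {r : ℝ | r ∈ Ico s t ∧ (al A r = 0 ∨ al A r = 2 * π)} := by
    rintro r ⟨hr, hr'⟩
    rcases lt_or_ge r s with h | h
    · exact Or.inl ⟨⟨hr.1, h⟩, hr'⟩
    · exact Or.inr ⟨⟨h, hr.2⟩, hr'⟩
  exact measure_mono_null h3 (measure_union_null h0 h2)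

/-- the case of small radii -/
lemma caseD (hpol : S_pol) (halc : S_alc) (hU : S_U) (hmono : S_mono) (hB1 : S_B1)
    (hB2 : S_B2) (hb : 1 ≤ b) {m C1 t0 t1 : ℝ} {A : Set ℂ} (hm : 0 < m)
    (Q : QQ b m A) (p : P2 b (D1 \ {0}) A C1) (l2 : Leb (D1 \ A) t0)
    (h0 : 0 < t0) (h1 : t0 < t1) (ht1 : t1 < 1) (hal : al A t0 = 2 * π)
    (hpos : 0 < volume (TT A t0))
    (n1 : ∀ t : ℝ, 0 < t → t ≤ t1 → 2.5 * (b + 2) * U b t < t * (1 - t) ^ b)
    (n2 : ∀ R : ℝ, 0 < R → R ≤ 1 / 2 → R * (1 - R) ^ b ≤ 2 * (b + 2) * (m0 b - U b R))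
    (n3 : U b t1 < m0 b / 2)
    (n4 : 2 * π * (m0 b - U b (1 / 2)) < m) : False := by
  obtain ⟨hUd, hU0, hU1, hUD, hUt⟩ := hU b
  have ht01 : t0 ∈ Ioo (0 : ℝ) 1 := ⟨h0, h1.trans ht1⟩
  have hsub : ∀ t : ℝ, t ≤ 1 → ball (0 : ℂ) t ⊆ D1 := fun t ht => ball_subset_ball ht
  have hball : ∀ t : ℝ, MeasurableSet (ball (0 : ℂ) t) := fun t => measurableSet_ball
  obtain ⟨-, hm1⟩ := Q.tr t0 ht01 hpos
  set m1 : ℝ := ms b (ball 0 t0 \ A) with hm1d
  have hm1pos : 0 < m1 := hm.trans_le hm1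
  set κ : ℝ := 2.5 * (b + 2) with hκ
  have hκ0 : 0 < κ := by positivity
  -- the hypothesis of the filling lemma
  have hten : Tendsto (fun η : ℝ => η⁻¹ * ∫ r in t0..(t0 + η), (2 * π - al A r)) (𝓝[>] 0)
      (𝓝 0) := by
    have h2 : al (D1 \ A) t0 = 0 := by
      rw [halc A Q.meas Q.sub t0 ht01, hal]
      ring
    unfold Leb at l2
    rw [h2] at l2
    refine l2.congr' ?_
    have h3 : Ioo (0 : ℝ) (1 - t0) ∈ 𝓝[>] (0 : ℝ) := Ioo_mem_nhdsGT (by linarith [ht01.2])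
    filter_upwards [h3] with η hη
    congr 1
    refine intervalIntegral.integral_congr fun r hr => ?_
    rw [uIcc_of_le (by linarith [hη.1])] at hr
    exact halc A Q.meas Q.sub r ⟨h0.trans_le hr.1, by linarith [hr.2, hη.2]⟩
  have hUt0 : U b t0 < m0 b / 2 := by
    have h2 : ms b (ball 0 t0) ≤ ms b (ball 0 t1) :=
      ms_mono (hball _) (ball_subset_ball h1.le) (hsub _ ht1.le)
    rw [hUt t0 ⟨h0.le, ht01.2.le⟩, hUt t1 ⟨(h0.trans h1).le, ht1.le⟩] at h2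
    have h3 : U b t0 ≤ U b t1 := le_of_mul_le_mul_left h2 (by positivity)
    linarith
  -- the outer radius
  set φ : ℝ → ℝ := fun R => ms b (A \ ball 0 R) with hφ
  have hφd : ∀ x ∈ Icc t0 (1 : ℝ), ∀ y ∈ Icc t0 (1 : ℝ), x ≤ y →
      |φ x - φ y| ≤ |2 * π * U b x - 2 * π * U b y| := by
    intro x hx y hy hxy
    have e1 : φ x - φ y = ms b (A \ ball 0 x ∩ ball 0 y) := by
      have h2 := ms_split (b := b) (A := A \ ball 0 x) (hball y) (diff_subset.trans Q.sub)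
      have h3 : (A \ ball 0 x) \ ball 0 y = A \ ball 0 y := by
        rw [diff_diff, union_eq_self_of_subset_left (ball_subset_ball hxy)]
      rw [h3] at h2
      simp only [hφ]
      linarith
    have h4 : ms b (A \ ball 0 x ∩ ball 0 y) ≤ ms b (ball 0 y \ ball 0 x) := by
      refine ms_mono ((hball _).diff (hball _)) ?_ (diff_subset.trans (hsub _ hy.2))
      rintro z ⟨hz, hz'⟩
      exact ⟨hz', hz.2⟩
    have h5 : ms b (ball 0 x) + ms b (ball 0 y \ ball 0 x) = ms b (ball 0 y) := by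
      have h6 := ms_split (b := b) (A := ball 0 y) (hball x) (hsub _ hy.2)
      rwa [inter_eq_self_of_subset_right (ball_subset_ball hxy)] at h6
    rw [hUt x ⟨h0.le.trans hx.1, hx.2⟩, hUt y ⟨h0.le.trans hy.1, hy.2⟩] at h5
    have h6 : 0 ≤ ms b (A \ ball 0 x ∩ ball 0 y) :=
      ms_nonneg ((Q.meas.diff (hball _)).inter (hball _))
        ((inter_subset_left.trans diff_subset).trans Q.sub)
    rw [e1, abs_of_nonneg h6, abs_sub_comm]
    exact (h4.trans (by linarith)).trans (le_abs_self _)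
  have hφd' : ∀ x ∈ Icc t0 (1 : ℝ), ∀ y ∈ Icc t0 (1 : ℝ),
      |φ x - φ y| ≤ |2 * π * U b x - 2 * π * U b y| := by
    intro x hx y hy
    rcases le_total x y with h | h
    · exact hφd x hx y hy h
    · rw [abs_sub_comm, abs_sub_comm (2 * π * U b x)]
      exact hφd y hy x hx h
  have hUc : Continuous fun x => 2 * π * U b x := by
    have : Continuous (U b) := continuous_iff_continuousAt.2 fun x => (hUd x).continuousAt
    fun_prop
  have hφc : ContinuousOn φ (Icc t0 1) := by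
    rw [Metric.continuousOn_iff]
    intro y hy ε hε
    obtain ⟨δ, hδ, h2⟩ := Metric.continuous_iff.1 hUc y ε hε
    refine ⟨δ, hδ, fun x hx hxy => ?_⟩
    have h3 := h2 x hxy
    rw [Real.dist_eq] at h3 ⊢
    exact (hφd' x hx y hy).trans_lt h3
  have hφ0 : m1 < φ t0 := by
    have h2 := ms_split (b := b) (A := A) (hball t0) Q.sub
    have h3 := ms_split (b := b) (A := ball 0 t0) Q.meas (hsub _ ht01.2.le)
    rw [inter_comm, hUt t0 ⟨h0.le, ht01.2.le⟩] at h3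
    have h4 := Q.half
    rw [hUD] at h4
    have h5 : 0 < π * (m0 b / 2 - U b t0) := mul_pos Real.pi_pos (by linarith)
    simp only [hφ]
    nlinarith
  have hφ1 : φ 1 = 0 := by
    have h2 : A \ ball 0 1 = ∅ := diff_eq_empty.2 Q.sub
    simp only [hφ]
    rw [h2]
    simp [ms]
  obtain ⟨R, hR, hRm⟩ := intermediate_value_Icc' ht01.2.le hφc
    (show m1 ∈ Icc (φ 1) (φ t0) from ⟨by rw [hφ1]; exact hm1pos.le, hφ0.le⟩)
  have hRt0 : t0 < R := by
    rcases hR.1.eq_or_lt with h | h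
    · rw [h, hRm] at hφ0
      exact absurd hφ0 (lt_irrefl _)
    · exact h
  have hR1 : R < 1 := by
    rcases hR.2.eq_or_lt with h | h
    · rw [h, hφ1] at hRm
      exact absurd hRm hm1pos.ne
    · exact h
  have hRh : R ≤ 1 / 2 := by
    by_contra hcon
    push Not at hcon
    have h2 : φ R ≤ ms b (D1 \ ball 0 (1 / 2)) := by
      refine ms_mono (D1_meas.diff (hball _)) ?_ diff_subset
      rintro z ⟨hz, hz'⟩
      exact ⟨Q.sub hz, fun h => hz' (ball_subset_ball hcon.le h)⟩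
    have h3 := ms_split (b := b) (A := D1) (hball (1 / 2)) subset_rfl
    rw [inter_eq_self_of_subset_right (hsub (1 / 2) (by norm_num)),
      hUt (1 / 2) ⟨by norm_num, by norm_num⟩, hUD] at h3
    rw [hRm] at h2
    linarith
  have hR0 : 0 < R := h0.trans hRt0
  have hUR : 0 < m0 b - U b R := (hmono b R R hR0 le_rfl hR1).2.2.2
  set κ' : ℝ := R * (1 - R) ^ b / (m0 b - U b R) with hκ'
  have hκ'e : κ' * (m0 b - U b R) = R * (1 - R) ^ b := div_mul_cancel₀ _ hUR.ne'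
  have hκ'2 : κ' ≤ 2 * (b + 2) := by
    rw [hκ', div_le_iff₀ hUR]
    exact n2 R hR0 hRh
  set F : Set ℂ := (A ∪ ball 0 t0) ∩ ball 0 R with hF
  have hFm : MeasurableSet F := (Q.meas.union (hball _)).inter (hball _)
  have hFs : F ⊆ D1 := inter_subset_right.trans (hsub _ hR1.le)
  have hAs : A ∪ ball 0 t0 ⊆ D1 := union_subset Q.sub (hsub _ ht01.2.le)
  have e2 : (A ∪ ball 0 t0) \ ball 0 R = A \ ball 0 R := by
    rw [union_diff_distrib, diff_eq_empty.2 (ball_subset_ball hRt0.le), union_empty]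
  have hF2 : ms b F = ms b D1 / 2 := by
    have h2 := ms_split (b := b) (A := A ∪ ball 0 t0) (hball R) hAs
    rw [e2] at h2
    have h3 : ms b (A ∪ ball 0 t0) = ms b A + m1 := by
      rw [← union_diff_self]
      exact ms_union disjoint_sdiff_right ((hball _).diff Q.meas) Q.sub
        (diff_subset.trans (hsub _ ht01.2.le))
    have h4 : ms b (A \ ball 0 R) = m1 := hRm
    rw [h4, h3] at h2
    rw [← Q.half]
    linarith
  have step : ∀ C : ℝ, P2 b (D1 \ {0}) A C → P2 b (D1 \ {0}) A (C - (κ - κ') * m1) := by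
    intro C hC
    have h2 := hB1 b A Q.meas Q.sub C hC t0 κ h0 ht01.2 hκ0 (n1 t0 h0 h1.le) hten
    have h3 := hB2 b hb (A ∪ ball 0 t0) (Q.meas.union (hball _)) hAs _ h2 R κ' hR0 hR1 hκ'e
    rw [e2] at h3
    have h4 : ms b (A \ ball 0 R) = m1 := hRm
    rw [h4] at h3
    have h5 := Q.min F hFm hFs hF2 _ h3
    have h6 : C - κ * ms b (ball 0 t0 \ A) + κ' * m1 = C - (κ - κ') * m1 := by
      rw [← hm1d]
      ring
    rwa [h6] at h5
  have hδ : 0 < (κ - κ') * m1 := by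
    refine mul_pos ?_ hm1pos
    have : (0 : ℝ) ≤ b := Nat.cast_nonneg b
    rw [hκ]
    linarith
  have iter : ∀ n : ℕ, P2 b (D1 \ {0}) A (C1 - n * ((κ - κ') * m1)) := by
    intro n
    induction n with
    | zero =>
      rw [Nat.cast_zero, zero_mul, sub_zero]
      exact p
    | succ n ih =>
      have h2 := step _ ih
      have h3 : C1 - n * ((κ - κ') * m1) - (κ - κ') * m1 =
          C1 - ((n + 1 : ℕ) : ℝ) * ((κ - κ') * m1) := by
        push_cast
        ring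
      rwa [h3] at h2
  obtain ⟨n, hn⟩ := exists_nat_gt (C1 / ((κ - κ') * m1))
  rw [div_lt_iff₀ hδ] at hn
  have := P2_nonneg (iter n)
  linarith

end T2D

open T2D

theorem t_t2d (hpol : S_pol) (halc : S_alc) (hU : S_U) (hmono : S_mono) (hA0 : S_A0) (hA : S_A)
    (hB1 : S_B1) (hB2 : S_B2) (hdisc : S_disc) (hdz : S_dz) (hleb : S_leb) (htrap : S_trap)
    (hnum : S_num) (hnumA : S_numA) (hnumB : S_numB) : S_t2d := by
  intro c hc
  obtain ⟨b0, hb0⟩ := hnumB.2 c hc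
  refine ⟨max 10000 b0, le_max_left _ _, ?_⟩
  have hb := le_max_left 10000 b0
  have hbc := hb0 _ (le_max_right 10000 b0)
  generalize max 10000 b0 = b at hb hbc
  intro A hL
  have hb1 : 1 ≤ b := by omega
  obtain ⟨hUd, hU0, hU1, hUD, hUt⟩ := hU b
  have hm0 : 0 < m0 b := by
    unfold m0
    positivity
  have hB : (10001 : ℝ) ≤ (b : ℝ) + 1 := by
    have : ((10000 : ℕ) : ℝ) ≤ b := by exact_mod_cast hb
    push_cast at this
    linarith
  have hB0 : (0 : ℝ) < (b : ℝ) + 1 := by linarith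
  -- the comparison disc
  obtain ⟨ρ, hρ0, hρ1, hρU, hρC⟩ := hnum b hb
  set C1 : ℝ := 2 * π * ρ * (1 - ρ) ^ b with hC1
  have hp : P2 b (D1 \ {0}) A C1 := by
    refine hL.min (ball 0 ρ) measurableSet_ball (ball_subset_ball hρ1.le) ?_ C1
      (hdisc b ρ hρ0 hρ1)
    rw [hUt ρ ⟨hρ0.le, hρ1.le⟩, hρU, hUD]
    ring
  have hmpos : 0 < c * ms b D1 := by
    rw [hUD]
    positivity
  have Q : QQ b (c * ms b D1) A := by
    refine ⟨hL.meas, hL.sub, hL.half, hL.min, fun t ht hv => ?_⟩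
    have h1 := (htrap b A hL.meas hL.sub (hmpos.trans_le hL.trap)).2 t ht hv
    exact ⟨hL.trap.trans h1.1, hL.trap.trans h1.2⟩
  have hgap : (1.9695 : ℝ) / (b + 1) < 1.9699 / (b + 1) :=
    div_lt_div_of_pos_right (by norm_num) hB0
  obtain ⟨nA1, nA2, nA3, nA4, nA5⟩ := hnumA b hb
  have r1 : (4.2 : ℝ) / (b + 1) < 1 := by
    rw [div_lt_one hB0]
    linarith
  have r2 : (2.2 : ℝ) / (b + 1) < 4.2 / (b + 1) := div_lt_div_of_pos_right (by norm_num) hB0
  have r3 : (0.6 : ℝ) / (b + 1) < 2.2 / (b + 1) := div_lt_div_of_pos_right (by norm_num) hB0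
  have r4 : (0 : ℝ) < 0.6 / (b + 1) := by positivity
  by_cases c1 : volume (TT A (4.2 / (b + 1))) = 0
  · have h1 := hA0 b A hL.meas hL.sub C1 hp (4.2 / (b + 1)) (by linarith) r1.le
      (ae_of_null hpol hL.meas hL.sub c1)
    linarith
  by_cases c2 : volume (TT A (2.2 / (b + 1))) = 0
  · obtain ⟨t0, ht0, Q2⟩ := exists_pt hleb Q hp (Ico_pos c2 c1 (by linarith))
    obtain ⟨k1, k2⟩ := nA2 t0 ht0.1.1 ht0.1.2.le
    have h1 := caseB hpol halc hU hA hdz hb1 Q2 (by linarith) ht0.1.1 (ht0.1.2.trans r1)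
      (by positivity) k1 k2 ht0.2 c2
    linarith
  by_cases c3 : volume (TT A (0.6 / (b + 1))) = 0
  · obtain ⟨t0, ht0, Q2⟩ := exists_pt hleb Q hp (Ico_pos c3 c2 (by linarith))
    obtain ⟨k1, k2⟩ := nA1 t0 ht0.1.1 ht0.1.2.le
    have h1 := caseB hpol halc hU hA hdz hb1 Q2 (by linarith) ht0.1.1
      ((ht0.1.2.trans r2).trans r1) (by positivity) k1 k2 ht0.2 c3
    linarith
  -- small radii
  obtain ⟨s, hs1, hs2⟩ := exists_split c3
  obtain ⟨t0, ht0, Q2⟩ := exists_pt hleb Q hp hs2.ne'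
  obtain ⟨⟨ht0a, ht0c⟩, ht0b⟩ := ht0
  have ht01 : t0 ∈ Ioo (0 : ℝ) 1 := ⟨ht0a.1, by linarith [ht0a.2]⟩
  obtain ⟨G, QG, hG, hT⟩ := Q2.pick hdz halc ht01 ht0c (2 * π) (Or.inr rfl)
  obtain ⟨nB1, nB2, nB3⟩ := hnumB.1 b hb
  refine caseD hpol halc hU hmono hB1 hB2 hb1 hmpos QG.q QG.p QG.l2 ht01.1 ht0a.2
    (by linarith) hG ?_ nB1 nB2 nB3 ?_
  · rw [hT t0 ht01.2.le]
    refine hs1.trans_le (measure_mono ?_)
    rintro r ⟨⟨hr, hr'⟩, hr''⟩
    exact ⟨⟨hr.1, lt_trans hr'' ht0b⟩, hr'⟩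
  · rw [hUD]
    have h1 := mul_lt_mul_of_pos_left hbc (by positivity : 0 < 2 * π)
    calc 2 * π * (m0 b - U b (1 / 2)) < 2 * π * (c * m0 b) := h1
      _ = c * (2 * π * m0 b) := by ring

end Pool.Agent.TH304.MI
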